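import Pool.Agent.Helper18.RD.Stmts6

set_option autoImplicit false

namespace Pool.Agent.Helper54.RD6

open Finset Pool.Agent.Helper18.RD

/-- expansion of a sum of squares -/
theorem expand (J Q : Finset ℕ) (f : ℕ → ℕ → ℕ → ℤ) :
    ∑ i ∈ J, ∑ j ∈ J, (∑ p ∈ Q, f p i j) ^ 2 =
      ∑ p ∈ Q, ∑ p' ∈ Q, ∑ i ∈ J, ∑ j ∈ J, f p i j * f p' i j := by
  calc ∑ i ∈ J, ∑ j ∈ J, (∑ p ∈ Q, f p i j) ^ 2
      = ∑ i ∈ J, ∑ j ∈ J, ∑ p ∈ Q, ∑ p' ∈ Q, f p i j * f p' i j := by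
        refine sum_congr rfl fun i _ => sum_congr rfl fun j _ => ?_
        rw [sq, sum_mul_sum]
    _ = ∑ i ∈ J, ∑ p ∈ Q, ∑ j ∈ J, ∑ p' ∈ Q, f p i j * f p' i j :=
        sum_congr rfl fun i _ => sum_comm
    _ = ∑ p ∈ Q, ∑ i ∈ J, ∑ j ∈ J, ∑ p' ∈ Q, f p i j * f p' i j := sum_comm
    _ = ∑ p ∈ Q, ∑ i ∈ J, ∑ p' ∈ Q, ∑ j ∈ J, f p i j * f p' i j :=
        sum_congr rfl fun p _ => sum_congr rfl fun i _ => sum_comm
    _ = ∑ p ∈ Q, ∑ p' ∈ Q, ∑ i ∈ J, ∑ j ∈ J, f p i j * f p' i j :=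
        sum_congr rfl fun p _ => sum_comm

theorem abs_jac (a : ℤ) (b : ℕ) : |jacobiSym a b| ≤ 1 := by
  rcases jacobiSym.trichotomy a b with h | h | h <;> simp [h]

theorem le_of_sq' {a b : ℤ} (hb : 0 ≤ b) (h : a ^ 2 ≤ b ^ 2) : a ≤ b := by
  by_contra hc
  push Not at hc
  nlinarith

/-- the indicator of `p ∣ m i - m j` -/
def ind (m : ℕ → ℤ) (p i j : ℕ) : ℤ := if (p : ℤ) ∣ m i - m j then 1 else 0

theorem ind_nonneg (m : ℕ → ℤ) (p i j : ℕ) : 0 ≤ ind m p i j := by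
  unfold ind; split_ifs <;> norm_num

theorem st_SMO (hB : ST_BIL) : ST_SMO := by
  intro y l J Q m F G hQ hF hG hl
  have key : ∀ p ∈ Q, ∀ p' ∈ Q, ∑ i ∈ J, ∑ j ∈ J,
      (jacobiSym (m i + m j) p * F p i * G p j) * (jacobiSym (m i + m j) p' * F p' i * G p' j) ≤
      (if p = p' then (J.card : ℤ) ^ 2 else 0) +
        y * ∑ i ∈ J, ∑ j ∈ J, ind m p i j * ind m p' i j := by
    intro p hp p' hp'
    have hN : 0 ≤ ∑ i ∈ J, ∑ j ∈ J, ind m p i j * ind m p' i j :=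
      sum_nonneg fun i _ => sum_nonneg fun j _ => mul_nonneg (ind_nonneg _ _ _ _) (ind_nonneg _ _ _ _)
    by_cases hpp : p = p'
    · subst hpp
      rw [if_pos rfl]
      have h1 : ∑ i ∈ J, ∑ j ∈ J, (jacobiSym (m i + m j) p * F p i * G p j) *
          (jacobiSym (m i + m j) p * F p i * G p j) ≤ ∑ i ∈ J, ∑ j ∈ J, (1 : ℤ) := by
        refine sum_le_sum fun i _ => sum_le_sum fun j _ => ?_
        have h : |jacobiSym (m i + m j) p * F p i * G p j| ≤ 1 := by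
          rw [abs_mul, abs_mul]
          exact mul_le_one₀ (mul_le_one₀ (abs_jac _ _) (abs_nonneg _) (hF p i)) (abs_nonneg _)
            (hG p j)
        rw [← abs_mul_abs_self]
        nlinarith [abs_nonneg (jacobiSym (m i + m j) p * F p i * G p j)]
      have h2 : ∑ i ∈ J, ∑ j ∈ J, (1 : ℤ) = (J.card : ℤ) ^ 2 := by
        simp [sq]
      have h3 : 0 ≤ (y : ℤ) * ∑ i ∈ J, ∑ j ∈ J, ind m p i j * ind m p i j :=
        mul_nonneg (by positivity) hN
      linarith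
    · rw [if_neg hpp, zero_add]
      obtain ⟨hp1, hp2, hp3⟩ := hQ p hp
      obtain ⟨hp1', hp2', hp3'⟩ := hQ p' hp'
      have : NeZero p := ⟨hp1.ne_zero⟩
      have : NeZero p' := ⟨hp1'.ne_zero⟩
      have hb := hB p p' J m (fun n => F p n * F p' n) (fun n => G p n * G p' n) hp1 hp1' hp2 hp2'
        hpp (fun n => by
          rw [abs_mul]; exact mul_le_one₀ (hF p n) (abs_nonneg _) (hF p' n))
        (fun n => by
          rw [abs_mul]; exact mul_le_one₀ (hG p n) (abs_nonneg _) (hG p' n))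
      have he : ∑ i ∈ J, ∑ j ∈ J, (jacobiSym (m i + m j) p * F p i * G p j) *
          (jacobiSym (m i + m j) p' * F p' i * G p' j) =
          ∑ i ∈ J, ∑ j ∈ J, jacobiSym (m i + m j) (p * p') * (F p i * F p' i) *
            (G p j * G p' j) := by
        refine sum_congr rfl fun i _ => sum_congr rfl fun j _ => ?_
        rw [jacobiSym.mul_right]
        ring
      have hc : (((J ×ˢ J).filter (fun x => ((p : ℤ) * p') ∣ m x.1 - m x.2)).card : ℤ) ≤
          ∑ i ∈ J, ∑ j ∈ J, ind m p i j * ind m p' i j := by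
        rw [← sum_product' J J (fun i j => ind m p i j * ind m p' i j), Finset.card_filter]
        push_cast
        refine sum_le_sum fun x _ => ?_
        by_cases hd : ((p : ℤ) * p') ∣ m x.1 - m x.2
        · rw [if_pos hd]
          have h1 : (p : ℤ) ∣ m x.1 - m x.2 := dvd_trans (dvd_mul_right _ _) hd
          have h2 : (p' : ℤ) ∣ m x.1 - m x.2 := dvd_trans (dvd_mul_left _ _) hd
          simp [ind, h1, h2]
        · rw [if_neg hd]
          exact mul_nonneg (ind_nonneg _ _ _ _) (ind_nonneg _ _ _ _)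
      rw [he]
      refine le_of_sq' (mul_nonneg (by positivity) hN) (hb.trans ?_)
      rw [mul_pow]
      refine mul_le_mul ?_ ?_ (by positivity) (by positivity)
      · have h1 : (p : ℤ) ≤ y := by exact_mod_cast hp3
        have h2 : (p' : ℤ) ≤ y := by exact_mod_cast hp3'
        rw [sq]
        exact mul_le_mul h1 h2 (by positivity) (by positivity)
      · exact pow_le_pow_left₀ (by positivity) hc 2
  have h1 := expand J Q (fun p i j => jacobiSym (m i + m j) p * F p i * G p j)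
  have h2 := expand J Q (fun p i j => ind m p i j)
  have h3 : ∑ i ∈ J, ∑ j ∈ J, (∑ p ∈ Q, ind m p i j) ^ 2 ≤
      (Q.card : ℤ) ^ 2 * J.card + (l : ℤ) ^ 2 * J.card ^ 2 := by
    have h4 : ∀ i ∈ J, ∀ j ∈ J, (∑ p ∈ Q, ind m p i j) ^ 2 ≤
        (if i = j then (Q.card : ℤ) ^ 2 else 0) + (l : ℤ) ^ 2 := by
      intro i hi j hj
      have h5 : ∑ p ∈ Q, ind m p i j = ((Q.filter (fun p : ℕ => (p : ℤ) ∣ m i - m j)).card : ℤ) := by
        rw [Finset.card_filter]
        push_cast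
        rfl
      rw [h5]
      by_cases hij : i = j
      · rw [if_pos hij]
        have h6 : ((Q.filter (fun p : ℕ => (p : ℤ) ∣ m i - m j)).card : ℤ) ≤ Q.card := by
          exact_mod_cast card_filter_le _ _
        have h7 : 0 ≤ ((Q.filter (fun p : ℕ => (p : ℤ) ∣ m i - m j)).card : ℤ) := by positivity
        have h8 : 0 ≤ (l : ℤ) ^ 2 := by positivity
        have h9 := pow_le_pow_left₀ h7 h6 2
        linarith
      · rw [if_neg hij, zero_add]
        have h6 : ((Q.filter (fun p : ℕ => (p : ℤ) ∣ m i - m j)).card : ℤ) ≤ l := by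
          exact_mod_cast hl i hi j hj hij
        exact pow_le_pow_left₀ (by positivity) h6 2
    calc ∑ i ∈ J, ∑ j ∈ J, (∑ p ∈ Q, ind m p i j) ^ 2
        ≤ ∑ i ∈ J, ∑ j ∈ J, ((if i = j then (Q.card : ℤ) ^ 2 else 0) + (l : ℤ) ^ 2) :=
          sum_le_sum fun i hi => sum_le_sum fun j hj => h4 i hi j hj
      _ = (Q.card : ℤ) ^ 2 * J.card + (l : ℤ) ^ 2 * J.card ^ 2 := by
          have h5 : ∀ i ∈ J, ∑ j ∈ J, ((if i = j then (Q.card : ℤ) ^ 2 else 0) + (l : ℤ) ^ 2) =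
              (Q.card : ℤ) ^ 2 + J.card * (l : ℤ) ^ 2 := by
            intro i hi
            rw [sum_add_distrib, sum_ite_eq, if_pos hi, sum_const, nsmul_eq_mul]
          rw [sum_congr rfl h5, sum_const, nsmul_eq_mul]
          ring
  have h6 : ∑ p ∈ Q, ∑ p' ∈ Q, (if p = p' then (J.card : ℤ) ^ 2 else 0) =
      (Q.card : ℤ) * J.card ^ 2 := by
    have h7 : ∀ p ∈ Q, ∑ p' ∈ Q, (if p = p' then (J.card : ℤ) ^ 2 else 0) = (J.card : ℤ) ^ 2 := by
      intro p hp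
      rw [sum_ite_eq, if_pos hp]
    rw [sum_congr rfl h7, sum_const, nsmul_eq_mul]
  rw [h1]
  calc ∑ p ∈ Q, ∑ p' ∈ Q, ∑ i ∈ J, ∑ j ∈ J,
      (jacobiSym (m i + m j) p * F p i * G p j) * (jacobiSym (m i + m j) p' * F p' i * G p' j)
      ≤ ∑ p ∈ Q, ∑ p' ∈ Q, ((if p = p' then (J.card : ℤ) ^ 2 else 0) +
        y * ∑ i ∈ J, ∑ j ∈ J, ind m p i j * ind m p' i j) :=
        sum_le_sum fun p hp => sum_le_sum fun p' hp' => key p hp p' hp'
    _ = (Q.card : ℤ) * J.card ^ 2 +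
        y * ∑ p ∈ Q, ∑ p' ∈ Q, ∑ i ∈ J, ∑ j ∈ J, ind m p i j * ind m p' i j := by
        simp only [sum_add_distrib, h6, mul_sum]
    _ ≤ (Q.card : ℤ) * J.card ^ 2 + y * (Q.card ^ 2 * J.card + l ^ 2 * J.card ^ 2) := by
        rw [← h2]
        have := mul_le_mul_of_nonneg_left h3 (by positivity : (0 : ℤ) ≤ y)
        linarith

end Pool.Agent.Helper54.RD6
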